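import Pool.Agent.K3h53.UG.Stm2

/-! UG project (helper53), brick GOOD: good balls for finitely many exponential polynomials
(by helper79). -/

set_option autoImplicit false

namespace Pool.Agent.K3h79.UG

open MvPolynomial Filter Topology Metric Set
open Pool.Agent.K3h22.EX Pool.Agent.K3h53.UG

/-! ### growth and Lipschitz bounds for polynomials -/

/-- growth and Lipschitz bounds on the ball of radius `L R` -/
def Lp {s : ℕ} (L : ℝ) (d : ℕ) (q : MvPolynomial (Fin s) ℂ) : Prop :=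
  ∃ C : ℝ, 0 ≤ C ∧ ∀ R : ℝ, 1 ≤ R → ∀ z z' : Fin s → ℂ, ‖z‖ ≤ L * R → ‖z'‖ ≤ L * R →
    ‖eval z q‖ ≤ C * R ^ d ∧ ‖eval z q - eval z' q‖ * R ≤ C * R ^ d * ‖z - z'‖

lemma Lp_C {s : ℕ} (L : ℝ) (a : ℂ) : Lp L 0 (C a : MvPolynomial (Fin s) ℂ) := by
  refine ⟨‖a‖, norm_nonneg _, fun R hR z z' _ _ => ⟨?_, ?_⟩⟩
  · rw [eval_C, pow_zero, mul_one]
  · rw [eval_C, eval_C, sub_self, norm_zero, zero_mul]
    positivity

lemma Lp_X {s : ℕ} (L : ℝ) (i : Fin s) : Lp L 1 (X i : MvPolynomial (Fin s) ℂ) := by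
  refine ⟨|L| + 1, by positivity, fun R hR z z' hz _ => ⟨?_, ?_⟩⟩
  · rw [eval_X, pow_one]
    refine (norm_le_pi_norm z i).trans (hz.trans ?_)
    have := le_abs_self L
    nlinarith
  · rw [eval_X, eval_X, pow_one]
    have h1 : ‖z i - z' i‖ ≤ ‖z - z'‖ := norm_le_pi_norm (z - z') i
    have h2 := norm_nonneg (z - z')
    have h3 := abs_nonneg L
    have h4 : ‖z i - z' i‖ * R ≤ ‖z - z'‖ * R := mul_le_mul_of_nonneg_right h1 (by linarith)
    nlinarith [mul_nonneg (mul_nonneg h3 (by linarith : (0:ℝ) ≤ R)) h2]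

lemma Lp_mono {s : ℕ} (L : ℝ) {d d' : ℕ} (hd : d ≤ d') {q : MvPolynomial (Fin s) ℂ}
    (h : Lp L d q) : Lp L d' q := by
  obtain ⟨C, hC, h⟩ := h
  refine ⟨C, hC, fun R hR z z' hz hz' => ?_⟩
  obtain ⟨h1, h2⟩ := h R hR z z' hz hz'
  have h3 : C * R ^ d ≤ C * R ^ d' := mul_le_mul_of_nonneg_left (pow_le_pow_right₀ hR hd) hC
  exact ⟨h1.trans h3, h2.trans (mul_le_mul_of_nonneg_right h3 (norm_nonneg _))⟩

lemma Lp_add {s : ℕ} (L : ℝ) {d : ℕ} {q q' : MvPolynomial (Fin s) ℂ}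
    (h : Lp L d q) (h' : Lp L d q') : Lp L d (q + q') := by
  obtain ⟨C, hC, h⟩ := h
  obtain ⟨C', hC', h'⟩ := h'
  refine ⟨C + C', by positivity, fun R hR z z' hz hz' => ?_⟩
  obtain ⟨h1, h2⟩ := h R hR z z' hz hz'
  obtain ⟨h1', h2'⟩ := h' R hR z z' hz hz'
  constructor
  · rw [map_add, add_mul]
    exact (norm_add_le _ _).trans (add_le_add h1 h1')
  · rw [map_add, map_add, add_mul, add_mul]
    have h3 : ‖eval z q + eval z q' - (eval z' q + eval z' q')‖ ≤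
        ‖eval z q - eval z' q‖ + ‖eval z q' - eval z' q'‖ := by
      rw [add_sub_add_comm]
      exact norm_add_le _ _
    calc _ ≤ (‖eval z q - eval z' q‖ + ‖eval z q' - eval z' q'‖) * R :=
          mul_le_mul_of_nonneg_right h3 (by linarith)
      _ = ‖eval z q - eval z' q‖ * R + ‖eval z q' - eval z' q'‖ * R := by ring
      _ ≤ _ := add_le_add h2 h2'

lemma Lp_mul {s : ℕ} (L : ℝ) {d d' : ℕ} {q q' : MvPolynomial (Fin s) ℂ}
    (h : Lp L d q) (h' : Lp L d' q') : Lp L (d + d') (q * q') := by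
  obtain ⟨C, hC, h⟩ := h
  obtain ⟨C', hC', h'⟩ := h'
  refine ⟨2 * (C * C'), by positivity, fun R hR z z' hz hz' => ?_⟩
  obtain ⟨h1, h2⟩ := h R hR z z' hz hz'
  obtain ⟨h1', h2'⟩ := h' R hR z z' hz hz'
  obtain ⟨h1'', -⟩ := h' R hR z' z hz' hz
  have hR0 : (0 : ℝ) ≤ R := by linarith
  have hP : 0 ≤ R ^ d := by positivity
  have hP' : 0 ≤ R ^ d' := by positivity
  constructor
  · rw [map_mul, norm_mul, pow_add]
    calc ‖eval z q‖ * ‖eval z q'‖ ≤ (C * R ^ d) * (C' * R ^ d') :=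
          mul_le_mul h1 h1' (norm_nonneg _) (by positivity)
      _ ≤ 2 * (C * C') * (R ^ d * R ^ d') := by
          have : 0 ≤ C * C' * (R ^ d * R ^ d') := by positivity
          nlinarith
  · rw [map_mul, map_mul]
    have h3 : eval z q * eval z q' - eval z' q * eval z' q' =
        eval z q * (eval z q' - eval z' q') + (eval z q - eval z' q) * eval z' q' := by ring
    rw [h3, pow_add]
    calc _ ≤ (‖eval z q‖ * ‖eval z q' - eval z' q'‖ +
          ‖eval z q - eval z' q‖ * ‖eval z' q'‖) * R := by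
            refine mul_le_mul_of_nonneg_right ?_ hR0
            refine (norm_add_le _ _).trans ?_
            rw [norm_mul, norm_mul]
      _ = ‖eval z q‖ * (‖eval z q' - eval z' q'‖ * R) +
          (‖eval z q - eval z' q‖ * R) * ‖eval z' q'‖ := by ring
      _ ≤ (C * R ^ d) * (C' * R ^ d' * ‖z - z'‖) + (C * R ^ d * ‖z - z'‖) * (C' * R ^ d') := by
            refine add_le_add (mul_le_mul h1 h2' (by positivity) (by positivity))
              (mul_le_mul h2 h1'' (norm_nonneg _) (by positivity))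
      _ = _ := by ring

lemma Lp_monomial {s : ℕ} (L : ℝ) (a : ℂ) (m : Fin s →₀ ℕ) :
    Lp L (m.sum fun _ e => e) (monomial m a : MvPolynomial (Fin s) ℂ) := by
  induction m using Finsupp.induction with
  | zero =>
    rw [Finsupp.sum_zero_index]
    exact Lp_C L a
  | single_add i n f hi hn ih =>
    have h1 : ((Finsupp.single i n + f).sum fun _ e => e) = n + f.sum fun _ e => e := by
      rw [Finsupp.sum_add_index' (fun _ => rfl) (fun _ _ _ => rfl), Finsupp.sum_single_index rfl]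
    have h2 : (monomial (Finsupp.single i n + f) a : MvPolynomial (Fin s) ℂ) =
        X i ^ n * monomial f a := by
      rw [X_pow_eq_monomial, monomial_mul, one_mul]
    rw [h1, h2]
    have h3 : ∀ k : ℕ, Lp L k (X i ^ k : MvPolynomial (Fin s) ℂ) := by
      intro k
      induction k with
      | zero =>
        rw [pow_zero, ← C_1]
        exact Lp_C L 1
      | succ k ihk =>
        rw [pow_succ]
        exact Lp_mul L ihk (Lp_X L i)
    exact Lp_mul L (h3 n) ih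

lemma Lp_zero {s : ℕ} (L : ℝ) (d : ℕ) : Lp L d (0 : MvPolynomial (Fin s) ℂ) := by
  rw [← C_0]
  exact Lp_mono L (Nat.zero_le d) (Lp_C L 0)

lemma Lp_sum {s : ℕ} {ι : Type} (L : ℝ) (d : ℕ) (S : Finset ι) (f : ι → MvPolynomial (Fin s) ℂ)
    (h : ∀ i ∈ S, Lp L d (f i)) : Lp L d (∑ i ∈ S, f i) := by
  classical
  induction S using Finset.induction_on with
  | empty =>
    rw [Finset.sum_empty]
    exact Lp_zero L d
  | insert a S ha ih =>
    rw [Finset.sum_insert ha]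
    exact Lp_add L (h a (Finset.mem_insert_self a S))
      (ih fun i hi => h i (Finset.mem_insert_of_mem hi))

lemma Lp_of_degree {s : ℕ} (L : ℝ) (d : ℕ) (q : MvPolynomial (Fin s) ℂ) (hq : q.totalDegree ≤ d) :
    Lp L d q := by
  rw [← support_sum_monomial_coeff q]
  refine Lp_sum L d _ _ fun m hm => ?_
  exact Lp_mono L ((le_totalDegree hm).trans hq) (Lp_monomial L _ m)

/-! ### differentiability -/

lemma diff_eval {s : ℕ} (q : MvPolynomial (Fin s) ℂ) :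
    Differentiable ℂ fun z : Fin s → ℂ => eval z q := by
  induction q using MvPolynomial.induction_on with
  | C a =>
    simp only [eval_C]
    exact differentiable_const a
  | add p q hp hq =>
    simp only [map_add]
    exact hp.add hq
  | mul_X p i hp =>
    simp only [map_mul, eval_X]
    exact hp.mul (differentiable_apply i)

/-! ### values of exponential polynomials -/

variable {s : ℕ} {β : Type} [Fintype β]

lemma eval_qm (p : β → MvPolynomial (Fin s) ℂ) (c : β → ℂ) (m : β →₀ ℕ) (z : Fin s → ℂ) :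
    eval z (qm p c m) = ∑ b, (m b : ℂ) * (eval z (p b) + c b) := by
  unfold qm expo
  rw [map_add, map_sum, eval_C, ← Finset.sum_add_distrib]
  refine Finset.sum_congr rfl fun b _ => ?_
  rw [map_mul, map_natCast, mul_add]

lemma val_eq (p : β → MvPolynomial (Fin s) ℂ) (c : β → ℂ) (z : Fin s → ℂ)
    (F : MvPolynomial β (MvPolynomial (Fin s) ℂ)) :
    val p c z F = ∑ m ∈ F.support, eval z (coeff m F) * Complex.exp (eval z (qm p c m)) := by
  unfold val
  rw [coe_eval₂Hom, eval₂_eq']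
  refine Finset.sum_congr rfl fun m _ => ?_
  congr 1
  simp_rw [← Complex.exp_nat_mul]
  rw [← Complex.exp_sum, eval_qm]

lemma diff_val (p : β → MvPolynomial (Fin s) ℂ) (c : β → ℂ)
    (F : MvPolynomial β (MvPolynomial (Fin s) ℂ)) :
    Differentiable ℂ fun z : Fin s → ℂ => val p c z F := by
  have h : (fun z : Fin s → ℂ => val p c z F) = fun z : Fin s → ℂ =>
      ∑ m ∈ F.support, eval z (coeff m F) * Complex.exp (eval z (qm p c m)) := by
    funext z
    exact val_eq p c z F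
  rw [h]
  refine Differentiable.fun_sum fun m _ => ?_
  exact (diff_eval _).mul (diff_eval _).cexp

lemma Lp_qm (L : ℝ) (p : β → MvPolynomial (Fin s) ℂ) (c : β → ℂ) (δ : ℕ)
    (hp : ∀ b, (p b).totalDegree ≤ δ) (m : β →₀ ℕ) : Lp L δ (qm p c m) := by
  unfold qm expo
  refine Lp_add L (Lp_sum L δ _ _ fun b _ => ?_) (Lp_mono L (Nat.zero_le δ) (Lp_C L _))
  have h1 : ((m b : ℕ) : MvPolynomial (Fin s) ℂ) = C ((m b : ℕ) : ℂ) := by
    rw [map_natCast]
  rw [h1]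
  have h2 := Lp_mul L (Lp_C (s := s) L ((m b : ℕ) : ℂ)) (Lp_of_degree L δ (p b) (hp b))
  rwa [zero_add] at h2

/-- uniform bounds -/
lemma unif (L : ℝ) (p : β → MvPolynomial (Fin s) ℂ) (c : β → ℂ) (δ : ℕ)
    (hp : ∀ b, (p b).totalDegree ≤ δ) (F : MvPolynomial β (MvPolynomial (Fin s) ℂ)) :
    ∃ (C : ℝ) (D : ℕ), 0 ≤ C ∧ ∀ R : ℝ, 1 ≤ R → ∀ z z' : Fin s → ℂ, ‖z‖ ≤ L * R →
      ‖z'‖ ≤ L * R → ∀ m ∈ F.support, ‖eval z (coeff m F)‖ ≤ C * R ^ D ∧
        ‖eval z (qm p c m) - eval z' (qm p c m)‖ * R ≤ C * R ^ δ * ‖z - z'‖ := by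
  classical
  choose C1 h1 h1' using fun m : β →₀ ℕ => Lp_of_degree L (coeff m F).totalDegree (coeff m F) le_rfl
  choose C2 h2 h2' using fun m : β →₀ ℕ => Lp_qm L p c δ hp m
  refine ⟨∑ m ∈ F.support, (C1 m + C2 m), F.support.sup fun m => (coeff m F).totalDegree,
    Finset.sum_nonneg fun m _ => add_nonneg (h1 m) (h2 m), ?_⟩
  intro R hR z z' hz hz' m hm
  have hR0 : (0 : ℝ) ≤ R := by linarith
  have h3 : C1 m + C2 m ≤ ∑ m ∈ F.support, (C1 m + C2 m) :=
    Finset.single_le_sum (f := fun m => C1 m + C2 m)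
      (fun m _ => add_nonneg (h1 m) (h2 m)) hm
  have h4 : (coeff m F).totalDegree ≤ F.support.sup fun m => (coeff m F).totalDegree :=
    Finset.le_sup (f := fun m => (coeff m F).totalDegree) hm
  constructor
  · refine (h1' m R hR z z' hz hz').1.trans ?_
    exact mul_le_mul (by linarith [h2 m]) (pow_le_pow_right₀ hR h4) (by positivity)
      (le_trans (add_nonneg (h1 m) (h2 m)) h3)
  · refine (h2' m R hR z z' hz hz').2.trans ?_
    refine mul_le_mul_of_nonneg_right ?_ (norm_nonneg _)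
    exact mul_le_mul_of_nonneg_right (by linarith [h1 m]) (by positivity)

/-! ### bounds near `z₀` -/

lemma norm_sc (R : ℝ) (hR : 0 ≤ R) (ζ : Fin s → ℂ) : ‖sc R ζ‖ = R * ‖ζ‖ := by
  have h : sc R ζ = (R : ℂ) • ζ := by
    funext i
    simp [sc]
  rw [h, norm_smul, Complex.norm_real, Real.norm_of_nonneg hR]

lemma div_le_one_pow (R : ℝ) (hR : 1 ≤ R) (δ : ℕ) (hδ : 1 ≤ δ) : R / R ^ δ ≤ 1 := by
  rw [div_le_one (by positivity)]
  calc R = R ^ 1 := (pow_one R).symm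
    _ ≤ R ^ δ := pow_le_pow_right₀ hR hδ

lemma near_norm (ζ : Fin s → ℂ) (C₀ A : ℝ) (hA : 0 ≤ A) (δ : ℕ) (hδ : 1 ≤ δ) (R : ℝ) (hR : 1 ≤ R)
    (z₀ z : Fin s → ℂ) (h0 : ‖z₀ - sc R ζ‖ ≤ C₀) (h1 : ‖z - z₀‖ ≤ A * (R / R ^ δ)) :
    ‖z‖ ≤ (‖ζ‖ + |C₀| + A) * R := by
  have h2 := div_le_one_pow R hR δ hδ
  have h3 : ‖z‖ ≤ ‖z - z₀‖ + ‖z₀ - sc R ζ‖ + ‖sc R ζ‖ := by
    have : z = (z - z₀) + (z₀ - sc R ζ) + sc R ζ := by abel
    conv_lhs => rw [this]
    exact norm_add₃_le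
  rw [norm_sc R (by linarith)] at h3
  have h4 : A * (R / R ^ δ) ≤ A := by nlinarith
  have h5 := le_abs_self C₀
  have h6 := abs_nonneg C₀
  have h7 : |C₀| + A ≤ (|C₀| + A) * R := by nlinarith
  nlinarith

lemma near (p : β → MvPolynomial (Fin s) ℂ) (c : β → ℂ) (δ : ℕ) (hδ : 1 ≤ δ)
    (hp : ∀ b, (p b).totalDegree ≤ δ) (F : MvPolynomial β (MvPolynomial (Fin s) ℂ))
    (ζ : Fin s → ℂ) (C₀ A : ℝ) (hA : 0 ≤ A) :
    ∃ (C : ℝ) (D : ℕ), 0 ≤ C ∧ ∀ R : ℝ, 1 ≤ R → ∀ z₀ : Fin s → ℂ, ‖z₀ - sc R ζ‖ ≤ C₀ →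
      ∀ z z' : Fin s → ℂ, ‖z - z₀‖ ≤ A * (R / R ^ δ) → ‖z' - z₀‖ ≤ A * (R / R ^ δ) →
      ∀ m ∈ F.support, ‖eval z (coeff m F)‖ ≤ C * R ^ D ∧
        ‖Complex.exp (eval z (qm p c m))‖ ≤ C * ‖Complex.exp (eval z' (qm p c m))‖ := by
  obtain ⟨C, D, hC, h⟩ := unif (‖ζ‖ + |C₀| + A) p c δ hp F
  refine ⟨C + Real.exp (2 * A * C), D, by positivity, ?_⟩
  intro R hR z₀ h0 z z' hz hz' m hm
  have hR0 : (0 : ℝ) < R := by linarith
  obtain ⟨h1, h2⟩ := h R hR z z' (near_norm ζ C₀ A hA δ hδ R hR z₀ z h0 hz)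
    (near_norm ζ C₀ A hA δ hδ R hR z₀ z' h0 hz') m hm
  constructor
  · refine h1.trans (mul_le_mul_of_nonneg_right ?_ (by positivity))
    linarith [Real.exp_pos (2 * A * C)]
  · have h3 : ‖z - z'‖ ≤ 2 * A * (R / R ^ δ) := by
      have : z - z' = (z - z₀) - (z' - z₀) := by abel
      rw [this]
      refine (norm_sub_le _ _).trans ?_
      linarith
    have h4 : C * R ^ δ * ‖z - z'‖ ≤ 2 * A * C * R := by
      calc C * R ^ δ * ‖z - z'‖ ≤ C * R ^ δ * (2 * A * (R / R ^ δ)) :=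
            mul_le_mul_of_nonneg_left h3 (by positivity)
        _ = 2 * A * C * R := by field_simp
    have h5 : ‖eval z (qm p c m) - eval z' (qm p c m)‖ ≤ 2 * A * C :=
      le_of_mul_le_mul_right (h2.trans h4) hR0
    rw [Complex.norm_exp, Complex.norm_exp]
    have h6 : (eval z (qm p c m)).re ≤ 2 * A * C + (eval z' (qm p c m)).re := by
      have := (Complex.abs_re_le_norm (eval z (qm p c m) - eval z' (qm p c m))).trans h5
      rw [Complex.sub_re] at this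
      linarith [le_abs_self ((eval z (qm p c m)).re - (eval z' (qm p c m)).re)]
    calc Real.exp (eval z (qm p c m)).re ≤ Real.exp (2 * A * C + (eval z' (qm p c m)).re) :=
          Real.exp_le_exp.mpr h6
      _ = Real.exp (2 * A * C) * Real.exp (eval z' (qm p c m)).re := Real.exp_add _ _
      _ ≤ _ := mul_le_mul_of_nonneg_right (by linarith) (Real.exp_pos _).le

lemma size_pos (p : β → MvPolynomial (Fin s) ℂ) (c : β → ℂ)
    (F : MvPolynomial β (MvPolynomial (Fin s) ℂ)) (hF : F ≠ 0) (z : Fin s → ℂ) :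
    0 < size p c F z := by
  unfold size
  refine Finset.sum_pos (fun m _ => ?_) (by rwa [Finset.nonempty_iff_ne_empty, ne_eq,
    MvPolynomial.support_eq_empty])
  rw [Complex.norm_exp]
  exact Real.exp_pos _

/-- upper bound -/
lemma upper (p : β → MvPolynomial (Fin s) ℂ) (c : β → ℂ) (δ : ℕ) (hδ : 1 ≤ δ)
    (hp : ∀ b, (p b).totalDegree ≤ δ) (F : MvPolynomial β (MvPolynomial (Fin s) ℂ))
    (ζ : Fin s → ℂ) (C₀ A : ℝ) (hA : 0 ≤ A) :
    ∃ (C : ℕ) (R₀ : ℝ), 1 ≤ R₀ ∧ ∀ R : ℝ, R₀ ≤ R → ∀ z₀ : Fin s → ℂ, ‖z₀ - sc R ζ‖ ≤ C₀ →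
      ∀ z : Fin s → ℂ, ‖z - z₀‖ ≤ A * (R / R ^ δ) → ‖val p c z F‖ ≤ R ^ C * size p c F z₀ := by
  obtain ⟨C, D, hC, h⟩ := near p c δ hδ hp F ζ C₀ A hA
  refine ⟨D + 1, max 1 (C * C), le_max_left _ _, ?_⟩
  intro R hR z₀ h0 z hz
  have hR1 : 1 ≤ R := (le_max_left _ _).trans hR
  have hRC : C * C ≤ R := (le_max_right _ _).trans hR
  have hz₀ : ‖z₀ - z₀‖ ≤ A * (R / R ^ δ) := by
    rw [sub_self, norm_zero]
    positivity
  rw [val_eq]
  unfold size
  rw [Finset.mul_sum]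
  refine (norm_sum_le _ _).trans (Finset.sum_le_sum fun m hm => ?_)
  obtain ⟨h1, h2⟩ := h R hR1 z₀ h0 z z₀ hz hz₀ m hm
  rw [norm_mul]
  calc _ ≤ (C * R ^ D) * (C * ‖Complex.exp (eval z₀ (qm p c m))‖) :=
        mul_le_mul h1 h2 (norm_nonneg _) (by positivity)
    _ = (C * C) * (R ^ D * ‖Complex.exp (eval z₀ (qm p c m))‖) := by ring
    _ ≤ R * (R ^ D * ‖Complex.exp (eval z₀ (qm p c m))‖) :=
        mul_le_mul_of_nonneg_right hRC (by positivity)
    _ = _ := by ring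

lemma gen_qm (p : β → MvPolynomial (Fin s) ℂ) (c : β → ℂ) (ζ : Fin s → ℂ) (m m' : β →₀ ℕ)
    (h : 0 < (expo p m - expo p m').totalDegree ∧ eval ζ (top (expo p m - expo p m')) ≠ 0) :
    0 < (qm p c m - qm p c m').totalDegree ∧ eval ζ (top (qm p c m - qm p c m')) ≠ 0 := by
  obtain ⟨h1, h2⟩ := h
  set P := expo p m - expo p m' with hP
  obtain ⟨b, hb⟩ : ∃ b : ℂ, qm p c m - qm p c m' = P + C b := by
    refine ⟨(∑ b, (m b : ℂ) * c b) - ∑ b, (m' b : ℂ) * c b, ?_⟩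
    rw [C_sub, hP]
    unfold qm
    ring
  have h3 : (P + C b).totalDegree = P.totalDegree :=
    totalDegree_add_eq_left_of_totalDegree_lt (by rw [totalDegree_C]; exact h1)
  have h4 : top (P + C b) = top P := by
    unfold top
    rw [h3, map_add]
    have : homogeneousComponent P.totalDegree (C b : MvPolynomial (Fin s) ℂ) = 0 := by
      rw [homogeneousComponent_of_mem ((mem_homogeneousSubmodule _ _).mpr (isHomogeneous_C _ b)),
        if_neg h1.ne']
    rw [this, add_zero]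
  rw [hb, h3, h4]
  exact ⟨h1, h2⟩

/-- a point where the value is large -/
lemma low (hL : S_LBC) (p : β → MvPolynomial (Fin s) ℂ) (c : β → ℂ) (δ : ℕ) (hδ : 1 ≤ δ)
    (hp : ∀ b, (p b).totalDegree ≤ δ) (F : MvPolynomial β (MvPolynomial (Fin s) ℂ)) (hF : F ≠ 0)
    (ζ : Fin s → ℂ) (hG : Gen p ζ F) (C₀ A : ℝ) (hA : 0 ≤ A) :
    ∃ (C : ℕ) (R₀ : ℝ), 1 ≤ R₀ ∧ ∀ R : ℝ, R₀ ≤ R → ∀ z₀ : Fin s → ℂ, ‖z₀ - sc R ζ‖ ≤ C₀ →
      ∀ z₁ : Fin s → ℂ, ‖z₁ - z₀‖ ≤ A * (R / R ^ δ) → ∃ z : Fin s → ℂ, ‖z - z₁‖ ≤ 1 / R ^ δ ∧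
        size p c F z₀ ≤ R ^ C * ‖val p c z F‖ := by
  obtain ⟨C, D, hC, h⟩ := near p c δ hδ hp F ζ C₀ A hA
  obtain ⟨CL, RL, hRL, hLBC⟩ := hL s F.support (fun m => qm p c m) (fun m => coeff (m : β →₀ ℕ) F) ζ
    (fun m => hG.1 m m.2)
    (fun m m' hmm => gen_qm p c ζ m m' (hG.2 m m.2 m' m'.2 fun h => hmm (Subtype.ext h)))
    δ (C₀ + A)
  refine ⟨CL + 1, max RL (C * F.support.card + 1), hRL.trans (le_max_left _ _), ?_⟩
  intro R hR z₀ h0 z₁ h1
  have hR1 : 1 ≤ R := hRL.trans ((le_max_left _ _).trans hR)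
  have hRC : C * F.support.card + 1 ≤ R := (le_max_right _ _).trans hR
  have hR0 : 0 < R := by linarith
  by_contra hcon
  push Not at hcon
  have hz₀ : ‖z₀ - z₀‖ ≤ A * (R / R ^ δ) := by
    rw [sub_self, norm_zero]
    positivity
  have hz1 : ‖z₁ - sc R ζ‖ ≤ C₀ + A := by
    have : z₁ - sc R ζ = (z₀ - sc R ζ) + (z₁ - z₀) := by abel
    rw [this]
    refine (norm_add_le _ _).trans (add_le_add h0 (h1.trans ?_))
    have := div_le_one_pow R hR1 δ hδ
    nlinarith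
  have hs := size_pos p c F hF z₀
  have hM := fun m => hLBC R ((le_max_left _ _).trans hR) z₁ hz1 m (size p c F z₀ / R ^ (CL + 1))
    (fun z hz => by
      have h2 : ∑ k : F.support, eval z (coeff (k : β →₀ ℕ) F) *
          Complex.exp (eval z (qm p c k)) = val p c z F := by
        rw [val_eq]
        exact Finset.sum_coe_sort F.support fun m =>
          eval z (coeff m F) * Complex.exp (eval z (qm p c m))
      rw [h2, le_div_iff₀ (by positivity), mul_comm]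
      exact (hcon z hz).le)
  have h3 : size p c F z₀ ≤ C * F.support.card * (size p c F z₀ / R) := by
    conv_lhs => unfold size
    have h4 : ∀ m ∈ F.support, ‖Complex.exp (eval z₀ (qm p c m))‖ ≤
        C * (size p c F z₀ / R) := by
      intro m hm
      refine (h R hR1 z₀ h0 z₀ z₁ hz₀ h1 m hm).2.trans (mul_le_mul_of_nonneg_left ?_ hC)
      refine (hM ⟨m, hm⟩).trans (le_of_eq ?_)
      rw [pow_succ]
      field_simp
    refine (Finset.sum_le_sum h4).trans (le_of_eq ?_)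
    rw [Finset.sum_const, nsmul_eq_mul]
    ring
  have h5 : C * F.support.card * (size p c F z₀ / R) < size p c F z₀ := by
    rw [mul_div_assoc', div_lt_iff₀ hR0, mul_comm (size p c F z₀) R]
    exact mul_lt_mul_of_pos_right (by linarith) hs
  linarith

/-! ### one function -/

lemma mulVec_bound (M : Matrix (Fin s) (Fin s) ℂ) :
    ∃ a : ℝ, 0 < a ∧ ∀ v : Fin s → ℂ, ‖M.mulVec v‖ ≤ a * ‖v‖ := by
  refine ⟨‖(Matrix.mulVecLin M).toContinuousLinearMap‖ + 1, by positivity, fun v => ?_⟩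
  have h := (Matrix.mulVecLin M).toContinuousLinearMap.le_opNorm v
  have h2 : ((Matrix.mulVecLin M).toContinuousLinearMap) v = M.mulVec v := rfl
  rw [h2] at h
  have := norm_nonneg v
  linarith

lemma exp_log_pow (R : ℝ) (hR : 0 < R) (n : ℕ) : Real.exp (n * Real.log R) = R ^ n := by
  rw [Real.exp_nat_mul, Real.exp_log hR]

/-- large values at real points -/
lemma real_point (hT : S_TC) (R : ℝ) (hR : 1 < R) (C1 C2 : ℕ) (h : (Fin s → ℂ) → ℂ)
    (hd : Differentiable ℂ h) (hU : ∀ ξ : Fin s → ℂ, ‖ξ‖ ≤ 10 → ‖h ξ‖ ≤ R ^ C1)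
    (ξ : Fin s → ℂ) (hξ : ‖ξ‖ ≤ 1 / 8) (hl : 1 ≤ R ^ C2 * ‖h ξ‖) :
    ∃ x₀ : Fin s → ℝ, ‖x₀‖ ≤ 3 ∧
      Real.exp (-(((2 * C2 + C1 + 1 : ℕ) : ℝ) * Real.log R)) ≤ ‖h fun i => (x₀ i : ℂ)‖ := by
  by_contra hcon
  push Not at hcon
  set l := Real.log R with hl'
  have hl0 : 0 < l := Real.log_pos hR
  have hR0 : 0 < R := by linarith
  let x : Fin s → ℝ := fun i => (ξ i).re
  let y : Fin s → ℝ := fun i => (ξ i).im
  have hx : ‖x‖ ≤ 1 / 8 := by
    rw [pi_norm_le_iff_of_nonneg (by norm_num)]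
    intro i
    rw [Real.norm_eq_abs]
    exact (Complex.abs_re_le_norm _).trans ((norm_le_pi_norm ξ i).trans hξ)
  have hy : ‖y‖ ≤ 1 / 8 := by
    rw [pi_norm_le_iff_of_nonneg (by norm_num)]
    intro i
    rw [Real.norm_eq_abs]
    exact (Complex.abs_im_le_norm _).trans ((norm_le_pi_norm ξ i).trans hξ)
  let w : Fin s → ℝ := fun i => y i / ‖y‖
  have hw : ∀ i, |w i| ≤ 1 := by
    intro i
    simp only [w]
    rw [abs_div, abs_norm]
    exact div_le_one_of_le₀ (norm_le_pi_norm y i) (norm_nonneg _)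
  have hyw : ∀ i, ‖y‖ * w i = y i := by
    intro i
    simp only [w]
    by_cases h0 : ‖y‖ = 0
    · have h1 : y i = 0 := by
        have := norm_le_pi_norm y i
        rw [h0] at this
        exact norm_le_zero_iff.mp this
      rw [h0, h1, zero_mul]
    · field_simp
  let g : ℂ → ℂ := fun t => h fun i => (x i : ℂ) + t * (w i : ℂ)
  have hg : Differentiable ℂ g := by
    refine hd.comp ?_
    refine differentiable_pi.mpr fun i => ?_
    exact (differentiable_const _).add (differentiable_id.mul (differentiable_const _))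
  have hnorm : ∀ t : ℂ, ‖fun i => (x i : ℂ) + t * (w i : ℂ)‖ ≤ 1 / 8 + ‖t‖ := by
    intro t
    rw [pi_norm_le_iff_of_nonneg (by positivity)]
    intro i
    refine (norm_add_le _ _).trans (add_le_add ?_ ?_)
    · rw [Complex.norm_real]
      exact (norm_le_pi_norm x i).trans hx
    · rw [norm_mul, Complex.norm_real, Real.norm_eq_abs]
      calc ‖t‖ * |w i| ≤ ‖t‖ * 1 := mul_le_mul_of_nonneg_left (hw i) (norm_nonneg _)
        _ = ‖t‖ := mul_one _
  set A := Real.exp ((C1 : ℝ) * l) with hA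
  set B := Real.exp (-(((2 * C2 + C1 + 1 : ℕ) : ℝ) * l)) with hB
  have hAB : B ≤ A := by
    rw [hA, hB]
    apply Real.exp_le_exp.mpr
    have : 0 ≤ ((2 * C2 + C1 + 1 : ℕ) : ℝ) * l := by positivity
    have : 0 ≤ (C1 : ℝ) * l := by positivity
    linarith
  have hTC := hT g A B hg (Real.exp_pos _) hAB
    (fun t ht1 ht2 ht3 => by
      rw [hA, exp_log_pow R hR0]
      apply hU
      refine (hnorm t).trans ?_
      have h1 : ‖t‖ ≤ |t.re| + |t.im| := Complex.norm_le_abs_re_add_abs_im t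
      rw [abs_of_nonneg ht2] at h1
      linarith)
    (fun t ht => by
      have h1 := hcon (fun i => x i + t * w i) (by
        rw [pi_norm_le_iff_of_nonneg (by norm_num)]
        intro i
        rw [Real.norm_eq_abs]
        have e1 := (norm_le_pi_norm x i).trans hx
        rw [Real.norm_eq_abs] at e1
        have e2 : |t * w i| ≤ 2 := by
          rw [abs_mul]
          calc |t| * |w i| ≤ 2 * 1 := mul_le_mul ht (hw i) (abs_nonneg _) (by norm_num)
            _ = 2 := by norm_num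
        have e3 := abs_add_le (x i) (t * w i)
        linarith)
      have h2 : (fun i => ((x i + t * w i : ℝ) : ℂ)) = fun i => (x i : ℂ) + (t : ℂ) * (w i : ℂ) := by
        funext i
        push_cast
        rfl
      rw [h2] at h1
      exact h1.le)
    ‖y‖ (norm_nonneg _) (by linarith)
  have hgξ : g (‖y‖ * Complex.I) = h ξ := by
    simp only [g]
    congr 1
    funext i
    have h1 : ((‖y‖ : ℝ) : ℂ) * Complex.I * (w i : ℂ) = (y i : ℂ) * Complex.I := by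
      rw [← hyw i]
      push_cast
      ring
    rw [h1]
    exact Complex.re_add_im (ξ i)
  rw [hgξ] at hTC
  have hlog : Real.log (A / B) = ((C1 : ℝ) + ((2 * C2 + C1 + 1 : ℕ) : ℝ)) * l := by
    rw [hA, hB, ← Real.exp_sub, Real.log_exp]
    ring
  rw [hlog, hB, ← Real.exp_add] at hTC
  have h5 : -(((2 * C2 + C1 + 1 : ℕ) : ℝ) * l) + 4 / 3 * ‖y‖ *
      (((C1 : ℝ) + ((2 * C2 + C1 + 1 : ℕ) : ℝ)) * l) < -((C2 : ℝ) * l) := by
    have h6 : ‖y‖ * (((C1 : ℝ) + ((2 * C2 + C1 + 1 : ℕ) : ℝ)) * l) ≤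
        1 / 8 * (((C1 : ℝ) + ((2 * C2 + C1 + 1 : ℕ) : ℝ)) * l) :=
      mul_le_mul_of_nonneg_right hy (by positivity)
    push_cast at h6 ⊢
    have h7 : (0 : ℝ) ≤ (C1 : ℝ) * l := by positivity
    have h8 : (0 : ℝ) ≤ (C2 : ℝ) * l := by positivity
    nlinarith
  have h9 : ‖h ξ‖ < Real.exp (-((C2 : ℝ) * l)) := lt_of_le_of_lt hTC (Real.exp_lt_exp.mpr h5)
  have h10 : R ^ C2 * ‖h ξ‖ < 1 := by
    rw [← exp_log_pow R hR0 C2]
    calc _ < Real.exp ((C2 : ℝ) * l) * Real.exp (-((C2 : ℝ) * l)) :=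
          mul_lt_mul_of_pos_left h9 (Real.exp_pos _)
      _ = 1 := by rw [← Real.exp_add, add_neg_cancel, Real.exp_zero]
  linarith

/-- one step -/
lemma step (hL : S_LBC) (hT : S_TC) (hZ : S_ZF) (p : β → MvPolynomial (Fin s) ℂ) (c : β → ℂ)
    (δ : ℕ) (hδ : 1 ≤ δ) (hp : ∀ b, (p b).totalDegree ≤ δ) (M : Matrix (Fin s) (Fin s) ℂ)
    (hM : M.det ≠ 0) (F : MvPolynomial β (MvPolynomial (Fin s) ℂ)) (hF : F ≠ 0)
    (ζ : Fin s → ℂ) (hG : Gen p ζ F) (C₀ A : ℝ) (hA : 0 ≤ A) :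
    ∃ (C : ℕ) (c' R₀ : ℝ), 0 < c' ∧ 3 ≤ R₀ ∧ ∀ R : ℝ, R₀ ≤ R → ∀ z₀ : Fin s → ℂ,
      ‖z₀ - sc R ζ‖ ≤ C₀ → ∀ z₁ : Fin s → ℂ, ‖z₁ - z₀‖ ≤ A * (R / R ^ δ) → ∀ ρ : ℝ,
      √R / R ^ δ ≤ ρ → ρ ≤ R / R ^ δ → ∃ z₂ : Fin s → ℂ,
        (∀ j, (M.mulVec (z₂ - z₁) j).re = 0) ∧ ‖z₂ - z₁‖ ≤ ρ / 4 ∧
        ∀ z : Fin s → ℂ, ‖z - z₂‖ ≤ ρ * (c' / Real.log R) →
          size p c F z₀ ≤ R ^ C * ‖val p c z F‖ := by
  obtain ⟨C1, R1, hR1, hU⟩ := upper p c δ hδ hp F ζ C₀ (A + 1) (by linarith)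
  obtain ⟨C2, R2, hR2, hW⟩ := low hL p c δ hδ hp F hF ζ hG C₀ A hA
  obtain ⟨c₁, CZ, hc₁, hCZ, hZF⟩ := hZ s
  obtain ⟨a, ha, haM⟩ := mulVec_bound M
  obtain ⟨b, hb, hbM⟩ := mulVec_bound M⁻¹
  set C3 : ℕ := 2 * C2 + C1 + 1 with hC3
  set C4 : ℕ := C1 + C3 + 1 with hC4
  have hC40 : (0 : ℝ) < (C4 : ℝ) := by
    rw [hC4]
    positivity
  refine ⟨⌈CZ * C4⌉₊, c₁ / (20 * a * b * C4), max (max R1 R2) (max 3 ((160 * a * b) ^ 2)),
    by positivity, (le_max_left _ _).trans (le_max_right _ _), ?_⟩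
  intro R hR z₀ h0 z₁ h1 ρ hρ1 hρ2
  have hRR1 : R1 ≤ R := ((le_max_left _ _).trans (le_max_left _ _)).trans hR
  have hRR2 : R2 ≤ R := ((le_max_right _ _).trans (le_max_left _ _)).trans hR
  have hR3 : 3 ≤ R := ((le_max_left _ _).trans (le_max_right _ _)).trans hR
  have hR4 : (160 * a * b) ^ 2 ≤ R := ((le_max_right _ _).trans (le_max_right _ _)).trans hR
  have hR0 : 0 < R := by linarith
  have hRδ : 0 < R ^ δ := by positivity
  have hsq : 160 * a * b ≤ √R := Real.le_sqrt_of_sq_le hR4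
  have hsq0 : 0 < √R := Real.sqrt_pos.mpr hR0
  have hlog : 1 ≤ Real.log R := by
    rw [Real.le_log_iff_exp_le hR0]
    have := Real.exp_one_lt_d9
    linarith
  have hρ0 : 0 < ρ := lt_of_lt_of_le (by positivity) hρ1
  have hs := size_pos p c F hF z₀
  set ρ' : ℝ := ρ / (20 * b) with hρ'
  have hρ'0 : 0 < ρ' := by positivity
  set κ : ℂ := (ρ' : ℂ) * Complex.I with hκ
  have hκ0 : κ ≠ 0 := by
    rw [hκ]
    exact mul_ne_zero (by exact_mod_cast hρ'0.ne') Complex.I_ne_zero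
  have hκn : ‖κ‖ = ρ' := by
    rw [hκ, norm_mul, Complex.norm_I, mul_one, Complex.norm_real, Real.norm_of_nonneg hρ'0.le]
  have hunit : IsUnit M.det := isUnit_iff_ne_zero.mpr hM
  have hNM : ∀ v : Fin s → ℂ, M⁻¹.mulVec (M.mulVec v) = v := by
    intro v
    rw [Matrix.mulVec_mulVec, Matrix.nonsing_inv_mul _ hunit, Matrix.one_mulVec]
  have hMN : ∀ v : Fin s → ℂ, M.mulVec (M⁻¹.mulVec v) = v := by
    intro v
    rw [Matrix.mulVec_mulVec, Matrix.mul_nonsing_inv _ hunit, Matrix.one_mulVec]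
  let G : (Fin s → ℂ) → Fin s → ℂ := fun ξ => z₁ + κ • M⁻¹.mulVec ξ
  have hG1 : ∀ ξ, ‖G ξ - z₁‖ ≤ ρ * ‖ξ‖ / 20 := by
    intro ξ
    have : G ξ - z₁ = κ • M⁻¹.mulVec ξ := by
      simp only [G]
      abel
    rw [this, norm_smul, hκn]
    calc ρ' * ‖M⁻¹.mulVec ξ‖ ≤ ρ' * (b * ‖ξ‖) := mul_le_mul_of_nonneg_left (hbM ξ) hρ'0.le
      _ = ρ * ‖ξ‖ / 20 := by
        rw [hρ']
        field_simp
  let X : (Fin s → ℂ) → Fin s → ℂ := fun z => κ⁻¹ • M.mulVec (z - z₁)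
  have hGX : ∀ z, G (X z) = z := by
    intro z
    simp only [G, X]
    rw [Matrix.mulVec_smul, hNM, smul_smul, mul_inv_cancel₀ hκ0, one_smul]
    abel
  have hMG : ∀ ξ, M.mulVec (G ξ - z₁) = κ • ξ := by
    intro ξ
    have : G ξ - z₁ = κ • M⁻¹.mulVec ξ := by
      simp only [G]
      abel
    rw [this, Matrix.mulVec_smul, hMN]
  have hXdist : ∀ (z : Fin s → ℂ) (ξ : Fin s → ℂ), ‖X z - ξ‖ ≤ a * ‖z - G ξ‖ / ρ' := by
    intro z ξ
    have h2 : X z - ξ = κ⁻¹ • M.mulVec (z - G ξ) := by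
      have h3 : z - G ξ = (z - z₁) - (G ξ - z₁) := by abel
      rw [h3, Matrix.mulVec_sub, hMG, smul_sub, smul_smul, inv_mul_cancel₀ hκ0, one_smul]
    rw [h2, norm_smul, norm_inv, hκn, inv_mul_eq_div]
    exact div_le_div_of_nonneg_right (haM _) hρ'0.le
  let h : (Fin s → ℂ) → ℂ := fun ξ => val p c (G ξ) F / (size p c F z₀ : ℂ)
  have hGd : Differentiable ℂ G := by
    have h2 : G = fun ξ => z₁ + κ • (Matrix.mulVecLin M⁻¹).toContinuousLinearMap ξ := rfl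
    rw [h2]
    exact (differentiable_const _).add
      (((Matrix.mulVecLin M⁻¹).toContinuousLinearMap.differentiable).const_smul κ)
  have hd : Differentiable ℂ h := by
    have e : h = fun ξ => val p c (G ξ) F * (size p c F z₀ : ℂ)⁻¹ := by
      funext ξ
      exact div_eq_mul_inv _ _
    rw [e]
    exact ((diff_val p c F).comp hGd).mul_const _
  have hhn : ∀ ξ, ‖h ξ‖ = ‖val p c (G ξ) F‖ / size p c F z₀ := by
    intro ξ
    simp only [h]
    rw [norm_div, Complex.norm_real, Real.norm_of_nonneg hs.le]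
  have hup : ∀ ξ : Fin s → ℂ, ‖ξ‖ ≤ 10 → ‖h ξ‖ ≤ R ^ C1 := by
    intro ξ hξ
    rw [hhn, div_le_iff₀ hs]
    apply hU R hRR1 z₀ h0
    have h2 : G ξ - z₀ = (G ξ - z₁) + (z₁ - z₀) := by abel
    rw [h2]
    refine (norm_add_le _ _).trans ?_
    have h3 := hG1 ξ
    have h4 : ρ * ‖ξ‖ / 20 ≤ R / R ^ δ := by
      have : ρ * ‖ξ‖ ≤ ρ * 10 := mul_le_mul_of_nonneg_left hξ hρ0.le
      linarith
    linarith
  -- a large value
  obtain ⟨zs, hzs1, hzs2⟩ := hW R hRR2 z₀ h0 z₁ h1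
  have hξs : ‖X zs‖ ≤ 1 / 8 := by
    have h2 := hXdist zs 0
    rw [sub_zero] at h2
    have h3 : G 0 = z₁ := by
      simp only [G]
      rw [Matrix.mulVec_zero, smul_zero, add_zero]
    rw [h3] at h2
    refine h2.trans ?_
    rw [div_le_iff₀ hρ'0]
    have h4 : a * ‖zs - z₁‖ ≤ a * (1 / R ^ δ) := mul_le_mul_of_nonneg_left hzs1 ha.le
    refine h4.trans ?_
    have h5 : 1 / 8 * (√R / R ^ δ / (20 * b)) ≤ 1 / 8 * ρ' :=
      mul_le_mul_of_nonneg_left (div_le_div_of_nonneg_right hρ1 (by positivity)) (by norm_num)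
    refine le_trans ?_ h5
    have h6 : 1 / 8 * (√R / R ^ δ / (20 * b)) = (√R / (160 * b)) / R ^ δ := by
      field_simp
      norm_num
    rw [h6, mul_one_div]
    refine div_le_div_of_nonneg_right ?_ hRδ.le
    rw [le_div_iff₀ (by positivity)]
    linarith
  have hls : 1 ≤ R ^ C2 * ‖h (X zs)‖ := by
    rw [hhn, hGX, mul_div_assoc', le_div_iff₀ hs, one_mul]
    exact hzs2
  obtain ⟨x₀, hx₀, hx₀'⟩ := real_point hT R (by linarith) C1 C2 h hd hup (X zs) hξs hls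
  -- a ball
  have hK1 : 1 ≤ (C4 : ℝ) * Real.log R := by
    have : (1 : ℝ) ≤ (C4 : ℝ) := by
      rw [hC4]
      push_cast
      have : (0 : ℝ) ≤ (C1 : ℝ) := by positivity
      have : (0 : ℝ) ≤ (C3 : ℝ) := by positivity
      linarith
    nlinarith
  have hlog0 : 0 ≤ Real.log R := by linarith
  obtain ⟨x₁, hx₁, hball⟩ := hZF ((C4 : ℝ) * Real.log R) h hK1 hd
    (fun ξ hξ => by
      refine (hup ξ hξ).trans ?_
      rw [exp_log_pow R hR0]
      exact pow_le_pow_right₀ (by linarith) (by omega))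
    x₀ hx₀ (by
      refine le_trans (Real.exp_le_exp.mpr ?_) hx₀'
      rw [neg_le_neg_iff]
      refine mul_le_mul_of_nonneg_right ?_ hlog0
      exact_mod_cast (by omega : 2 * C2 + C1 + 1 ≤ C4))
  refine ⟨G fun i => (x₁ i : ℂ), ?_, ?_, ?_⟩
  · intro j
    rw [hMG, Pi.smul_apply, smul_eq_mul, hκ]
    simp
  · refine (hG1 _).trans ?_
    have h2 : ‖fun i => (x₁ i : ℂ)‖ ≤ 5 := by
      rw [pi_norm_le_iff_of_nonneg (by norm_num)]
      intro i
      rw [Complex.norm_real]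
      exact (norm_le_pi_norm x₁ i).trans hx₁
    have : ρ * ‖fun i => (x₁ i : ℂ)‖ ≤ ρ * 5 := mul_le_mul_of_nonneg_left h2 hρ0.le
    linarith
  · intro z hz
    have h2 : ‖X z - fun i => (x₁ i : ℂ)‖ ≤ c₁ / ((C4 : ℝ) * Real.log R) := by
      refine (hXdist z _).trans ?_
      rw [div_le_iff₀ hρ'0]
      calc a * ‖z - G fun i => (x₁ i : ℂ)‖ ≤
            a * (ρ * (c₁ / (20 * a * b * C4) / Real.log R)) :=
            mul_le_mul_of_nonneg_left hz ha.le
        _ = c₁ / ((C4 : ℝ) * Real.log R) * ρ' := by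
            rw [hρ']
            have : Real.log R ≠ 0 := by linarith
            field_simp
    have h3 := hball (X z) h2
    rw [hhn, hGX, le_div_iff₀ hs] at h3
    have h4 : Real.exp (CZ * ((C4 : ℝ) * Real.log R)) ≤ R ^ ⌈CZ * C4⌉₊ := by
      rw [← exp_log_pow R hR0, ← mul_assoc]
      apply Real.exp_le_exp.mpr
      exact mul_le_mul_of_nonneg_right (Nat.le_ceil _) hlog0
    calc size p c F z₀ = Real.exp (CZ * ((C4 : ℝ) * Real.log R)) *
          (Real.exp (-(CZ * ((C4 : ℝ) * Real.log R))) * size p c F z₀) := by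
            rw [← mul_assoc, ← Real.exp_add, add_neg_cancel, Real.exp_zero, one_mul]
      _ ≤ Real.exp (CZ * ((C4 : ℝ) * Real.log R)) * ‖val p c z F‖ :=
            mul_le_mul_of_nonneg_left h3 (Real.exp_pos _).le
      _ ≤ _ := mul_le_mul_of_nonneg_right h4 (norm_nonneg _)

/-! ### the family -/

lemma log_small (c : ℝ) (hc : 0 < c) (k : ℕ) :
    ∃ R₀ : ℝ, 3 ≤ R₀ ∧ ∀ R : ℝ, R₀ ≤ R → ∀ δ : ℕ,
      √R / R ^ δ ≤ R / R ^ δ * (c / Real.log R) ^ k := by
  have h1 := (Real.isLittleO_pow_log_id_atTop (n := k)).def (c := (c / 2) ^ k) (by positivity)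
  obtain ⟨x₀, hx₀⟩ := Filter.eventually_atTop.mp h1
  refine ⟨max 3 ((max x₀ 0) ^ 2), le_max_left _ _, fun R hR δ => ?_⟩
  have hR3 : 3 ≤ R := (le_max_left _ _).trans hR
  have hR0 : 0 < R := by linarith
  have h2 : max x₀ 0 ≤ √R := Real.le_sqrt_of_sq_le ((le_max_right _ _).trans hR)
  have h3 := hx₀ √R ((le_max_left _ _).trans h2)
  have hsq0 : 0 < √R := Real.sqrt_pos.mpr hR0
  have hlog : 1 ≤ Real.log R := by
    rw [Real.le_log_iff_exp_le hR0]
    have := Real.exp_one_lt_d9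
    linarith
  have h4 : Real.log √R = Real.log R / 2 := Real.log_sqrt hR0.le
  rw [h4, Real.norm_of_nonneg (by positivity), id, Real.norm_of_nonneg hsq0.le, div_pow, div_pow]
    at h3
  have h5 : Real.log R ^ k ≤ c ^ k * √R := by
    have h6 : (0 : ℝ) < 2 ^ k := by positivity
    rw [div_mul_eq_mul_div] at h3
    exact (div_le_div_iff_of_pos_right h6).mp h3
  rw [div_mul_eq_mul_div]
  refine div_le_div_of_nonneg_right ?_ (by positivity)
  rw [div_pow, mul_div_assoc', le_div_iff₀ (by positivity)]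
  calc √R * Real.log R ^ k ≤ √R * (c ^ k * √R) := mul_le_mul_of_nonneg_left h5 hsq0.le
    _ = (√R * √R) * c ^ k := by ring
    _ = R * c ^ k := by rw [Real.mul_self_sqrt hR0.le]

lemma fam (hL : S_LBC) (hT : S_TC) (hZ : S_ZF) (p : β → MvPolynomial (Fin s) ℂ) (c : β → ℂ)
    (δ : ℕ) (hδ : 1 ≤ δ) (hp : ∀ b, (p b).totalDegree ≤ δ) (M : Matrix (Fin s) (Fin s) ℂ)
    (hM : M.det ≠ 0) (ζ : Fin s → ℂ) (C₀ : ℝ)
    (T : Finset (MvPolynomial β (MvPolynomial (Fin s) ℂ))) :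
    (∀ F ∈ T, F ≠ 0 ∧ Gen p ζ F) →
    ∃ (C : ℕ) (c' : ℝ) (k : ℕ) (R₀ : ℝ), 0 < c' ∧ c' ≤ 1 ∧ 3 ≤ R₀ ∧ ∀ R : ℝ, R₀ ≤ R →
      ∀ z₀ : Fin s → ℂ, ‖z₀ - sc R ζ‖ ≤ C₀ → ∃ z₁ : Fin s → ℂ,
        (∀ j, (M.mulVec (z₁ - z₀) j).re = 0) ∧ ‖z₁ - z₀‖ ≤ T.card * (R / R ^ δ) ∧
        ∀ z : Fin s → ℂ, ‖z - z₁‖ ≤ R / R ^ δ * (c' / Real.log R) ^ k → ∀ F ∈ T,
          size p c F z₀ ≤ R ^ C * ‖val p c z F‖ ∧ ‖val p c z F‖ ≤ R ^ C * size p c F z₀ := by
  classical
  induction T using Finset.induction_on with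
  | empty =>
    intro _
    refine ⟨0, 1, 0, 3, one_pos, le_rfl, le_rfl, fun R hR z₀ h0 => ⟨z₀, fun j => ?_, ?_, ?_⟩⟩
    · rw [sub_self, Matrix.mulVec_zero]
      rfl
    · rw [sub_self, norm_zero, Finset.card_empty, Nat.cast_zero, zero_mul]
    · intro z _ F hF
      exact absurd hF (Finset.notMem_empty F)
  | insert F T hFT ih =>
    intro hT'
    obtain ⟨C, c', k, R₀, hc', hc'1, hR₀, h⟩ := ih fun F hF => hT' F (Finset.mem_insert_of_mem hF)
    obtain ⟨hF0, hFG⟩ := hT' F (Finset.mem_insert_self F T)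
    obtain ⟨C', c'', R', hc'', hR', h'⟩ :=
      step hL hT hZ p c δ hδ hp M hM F hF0 ζ hFG C₀ T.card (by positivity)
    obtain ⟨CU, RU, hRU, hU⟩ := upper p c δ hδ hp F ζ C₀ (T.card + 2) (by positivity)
    obtain ⟨Rl, hRl, hl⟩ := log_small c' hc' k
    set c₃ : ℝ := min (min c' c'') (3 / 4) with hc₃
    have hc₃0 : 0 < c₃ := lt_min (lt_min hc' hc'') (by norm_num)
    have hc₃1 : c₃ ≤ c' := (min_le_left _ _).trans (min_le_left _ _)
    have hc₃2 : c₃ ≤ c'' := (min_le_left _ _).trans (min_le_right _ _)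
    have hc₃3 : c₃ ≤ 3 / 4 := min_le_right _ _
    refine ⟨max (max C C') CU, c₃, k + 1, max (max R₀ R') (max RU Rl), hc₃0, by linarith,
      hR₀.trans ((le_max_left _ _).trans (le_max_left _ _)), ?_⟩
    intro R hR z₀ h0
    have hR1 : R₀ ≤ R := ((le_max_left _ _).trans (le_max_left _ _)).trans hR
    have hR2 : R' ≤ R := ((le_max_right _ _).trans (le_max_left _ _)).trans hR
    have hR3 : RU ≤ R := ((le_max_left _ _).trans (le_max_right _ _)).trans hR
    have hR4 : Rl ≤ R := ((le_max_right _ _).trans (le_max_right _ _)).trans hR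
    have hRge : 3 ≤ R := hR₀.trans hR1
    have hR0 : 0 < R := by linarith
    have hlog : 1 ≤ Real.log R := by
      rw [Real.le_log_iff_exp_le hR0]
      have := Real.exp_one_lt_d9
      linarith
    have hlog0 : 0 < Real.log R := by linarith
    obtain ⟨z₁, hz₁M, hz₁, hz₁T⟩ := h R hR1 z₀ h0
    set ρ : ℝ := R / R ^ δ * (c' / Real.log R) ^ k with hρ
    have hρ0 : 0 < ρ := by positivity
    have hcl : c' / Real.log R ≤ 1 := by
      rw [div_le_one hlog0]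
      linarith
    have hρ1 : ρ ≤ R / R ^ δ := by
      rw [hρ]
      calc R / R ^ δ * (c' / Real.log R) ^ k ≤ R / R ^ δ * 1 :=
            mul_le_mul_of_nonneg_left (pow_le_one₀ (by positivity) hcl) (by positivity)
        _ = R / R ^ δ := mul_one _
    obtain ⟨z₂, hz₂M, hz₂, hz₂F⟩ := h' R hR2 z₀ h0 z₁ hz₁ ρ (hl R hR4 δ) hρ1
    have hρnew : R / R ^ δ * (c₃ / Real.log R) ^ (k + 1) ≤ ρ * (c₃ / Real.log R) := by
      rw [pow_succ, ← mul_assoc]
      refine mul_le_mul_of_nonneg_right ?_ (by positivity)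
      rw [hρ]
      refine mul_le_mul_of_nonneg_left ?_ (by positivity)
      exact pow_le_pow_left₀ (by positivity) (div_le_div_of_nonneg_right hc₃1 hlog0.le) _
    have hρnew1 : ρ * (c₃ / Real.log R) ≤ ρ * (c'' / Real.log R) :=
      mul_le_mul_of_nonneg_left (div_le_div_of_nonneg_right hc₃2 hlog0.le) hρ0.le
    have hρnew2 : ρ * (c₃ / Real.log R) ≤ ρ * (3 / 4) := by
      refine mul_le_mul_of_nonneg_left ?_ hρ0.le
      rw [div_le_iff₀ hlog0]
      nlinarith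
    have hz₂₀ : ‖z₂ - z₀‖ ≤ ((T.card : ℝ) + 1) * (R / R ^ δ) := by
      have : z₂ - z₀ = (z₂ - z₁) + (z₁ - z₀) := by abel
      rw [this]
      refine (norm_add_le _ _).trans ?_
      have : ρ / 4 ≤ R / R ^ δ := by linarith
      linarith
    refine ⟨z₂, ?_, ?_, ?_⟩
    · intro j
      have : z₂ - z₀ = (z₂ - z₁) + (z₁ - z₀) := by abel
      rw [this, Matrix.mulVec_add, Pi.add_apply, Complex.add_re, hz₂M, hz₁M, add_zero]
    · rw [Finset.card_insert_of_notMem hFT]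
      push_cast
      exact hz₂₀
    · intro z hz F' hF'
      have hz1 : ‖z - z₂‖ ≤ ρ * (c₃ / Real.log R) := hz.trans hρnew
      have hRge1 : 1 ≤ R := by linarith
      have hzz₁ : ‖z - z₁‖ ≤ ρ := by
        have : z - z₁ = (z - z₂) + (z₂ - z₁) := by abel
        rw [this]
        refine (norm_add_le _ _).trans ?_
        linarith
      rcases Finset.mem_insert.mp hF' with rfl | hF'
      · constructor
        · refine (hz₂F z (hz1.trans hρnew1)).trans ?_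
          refine mul_le_mul_of_nonneg_right ?_ (norm_nonneg _)
          exact pow_le_pow_right₀ hRge1 ((le_max_right _ _).trans (le_max_left _ _))
        · refine (hU R hR3 z₀ h0 z ?_).trans ?_
          · have : z - z₀ = (z - z₂) + (z₂ - z₀) := by abel
            rw [this]
            refine (norm_add_le _ _).trans ?_
            linarith
          · refine mul_le_mul_of_nonneg_right ?_ (size_pos p c F' hF0 z₀).le
            exact pow_le_pow_right₀ hRge1 (le_max_right _ _)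
      · obtain ⟨e1, e2⟩ := hz₁T z hzz₁ F' hF'
        have hpow : R ^ C ≤ R ^ (max (max C C') CU) :=
          pow_le_pow_right₀ hRge1 ((le_max_left _ _).trans (le_max_left _ _))
        constructor
        · exact e1.trans (mul_le_mul_of_nonneg_right hpow (norm_nonneg _))
        · refine e2.trans (mul_le_mul_of_nonneg_right hpow ?_)
          exact (size_pos p c F' (hT' F' (Finset.mem_insert_of_mem hF')).1 z₀).le

theorem t_GOOD (hL : S_LBC) (hT : S_TC) (hZ : S_ZF) : S_GOOD := by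
  intro s β _ p c ζ δ hδ hp M hM T hTg C₀
  obtain ⟨C, c', k, R₀, hc', hc'1, hR₀, h⟩ := fam hL hT hZ p c δ hδ hp M hM ζ C₀ T hTg
  obtain ⟨Rl, hRl, hl⟩ := log_small c' hc' k
  refine ⟨max C T.card, max R₀ Rl, by linarith [le_max_left R₀ Rl], ?_⟩
  intro R hR z₀ h0
  have hR1 : R₀ ≤ R := (le_max_left _ _).trans hR
  have hR2 : Rl ≤ R := (le_max_right _ _).trans hR
  have hRge : 1 ≤ R := by linarith
  obtain ⟨z₁, hz₁M, hz₁, hz₁T⟩ := h R hR1 z₀ h0
  refine ⟨z₁ - z₀, hz₁M, ?_, ?_⟩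
  · refine hz₁.trans ?_
    rw [mul_div_assoc]
    refine mul_le_mul_of_nonneg_right ?_ (by positivity)
    exact_mod_cast le_max_right _ _
  · intro z hz F hF
    have h1 : z₀ + (z₁ - z₀) = z₁ := by abel
    rw [h1] at hz
    obtain ⟨e1, e2⟩ := hz₁T z (hz.le.trans (hl R hR2 δ)) F hF
    have hpow : R ^ C ≤ R ^ (max C T.card) := pow_le_pow_right₀ hRge (le_max_left _ _)
    exact ⟨e1.trans (mul_le_mul_of_nonneg_right hpow (norm_nonneg _)),
      e2.trans (mul_le_mul_of_nonneg_right hpow (size_pos p c F (hTg F hF).1 z₀).le)⟩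

end Pool.Agent.K3h79.UG
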